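import Mathlib
import Pool.Agent.Lib.Helper88.CpDefs
import Pool.Agent.Lib.Helper88.CpCore
import Pool.Agent.Lib.Helper88.CpOrdered

/-!
# Perfectly normal continuous images of compact ordered spaces
-/

open Set Filter Topology Helper88.CpTheory

namespace Pool.Agent.Results.MP_3e0795_gt.OrderedImages

universe u

/-- Every perfectly normal space that is a continuous image of a compact linearly ordered space is
hereditarily Grothendieck. -/
theorem result (L X : Type u) [LinearOrder L] [TopologicalSpace L] [OrderTopology L] [CompactSpace L]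
    [TopologicalSpace X] [T2Space X] [PerfectlyNormalSpace X] (π : L → X) (hπ : Continuous π) 
    (hs : Function.Surjective π) : IsHereditarilyGrothendieck X := by
  classical
  have : CompactSpace X := ⟨by rw [← hs.range_eq]; exact isCompact_range hπ⟩
  have := hereditarilyLindelof_of_perfectlyNormal X
  have := firstCountable_of_perfectlyNormal X
  intro Y
  apply isGrothendieck_of_frechet
  intro B hB hc S hSB g hg
  have h := CCin_of_isCompact hB
  have hgB : g ∈ B := closure_minimal hSB hB.isClosed hg
  obtain ⟨d, hd, hgd⟩ := exists_countable_tight B hB hc S hSB g hg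
  -- add g to the list
  let d' : ℕ → Y → ℝ := fun n => Nat.casesOn n g d
  have hd' : ∀ n, Continuous (d' n) := by
    intro n
    cases n with
    | zero => exact hc g hgB
    | succ n => exact hc _ (hSB (hd n))
  obtain ⟨Q, hQc, hQ⟩ := exists_countable_test π hπ hs Y d' hd'
  -- a sequence in range d converging to g on Q
  have hseq : ∃ v : ℕ → Y → ℝ, (∀ n, v n ∈ Set.range d) ∧ ∀ q ∈ Q, Tendsto (fun n => v n q) atTop (𝓝 (g q)) := by
    rcases Q.eq_empty_or_nonempty with rfl | hQne
    · exact ⟨fun _ => d 0, fun _ => ⟨0, rfl⟩, by simp⟩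
    obtain ⟨s, rfl⟩ := hQc.exists_eq_range hQne
    have hch : ∀ n : ℕ, ∃ f ∈ Set.range d, ∀ k ≤ n, |f (s k) - g (s k)| < 1 / ((n : ℝ) + 1) := by
      intro n
      rw [mem_closure_iff] at hgd
      have hopen : IsOpen (⋂ k ∈ Finset.range (n+1), {f : Y → ℝ | |f (s k) - g (s k)| < 1 / ((n : ℝ) + 1)}) := by
        apply isOpen_biInter_finset
        intro k _
        exact isOpen_lt (((continuous_apply (s k)).sub continuous_const).abs) continuous_const
      obtain ⟨f, hf1, hf2⟩ := hgd _ hopen (by
        simp only [mem_iInter, mem_ofPred_eq, sub_self, abs_zero]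
        intro k _
        positivity)
      refine ⟨f, hf2, fun k hk => ?_⟩
      simp only [mem_iInter, mem_ofPred_eq] at hf1
      exact hf1 k (Finset.mem_range.2 (by omega))
    choose v hv1 hv2 using hch
    refine ⟨v, hv1, ?_⟩
    rintro _ ⟨k, rfl⟩
    have h2 : Tendsto (fun n => v n (s k) - g (s k)) atTop (𝓝 0) := by
      rw [tendsto_zero_iff_abs_tendsto_zero]
      apply squeeze_zero' (g := fun n : ℕ => 1 / ((n : ℝ) + 1))
      · exact Eventually.of_forall fun n => abs_nonneg _
      · filter_upwards [eventually_ge_atTop k] with n hn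
        exact (hv2 n k hn).le
      · exact tendsto_one_div_add_atTop_nhds_zero_nat
    have h3 := h2.add_const (g (s k))
    simpa using h3
  obtain ⟨v, hv, hvQ⟩ := hseq
  have hvS : ∀ n, v n ∈ S := by
    intro n
    obtain ⟨k, hk⟩ := hv n
    rw [← hk]
    exact hd k
  obtain ⟨φ, hφ, g', hg', hlim⟩ := exists_subseq h hc v (fun n => hSB (hvS n))
  refine ⟨fun n => v (φ n), fun n => hvS _, ?_⟩
  have heq : g' = g := by
    apply hQ g' g (hc g' hg') (hc g hgB)
    · intro y y' hyy'
      have h1 := tendsto_pi_nhds.1 hlim y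
      have h2 := tendsto_pi_nhds.1 hlim y'
      refine tendsto_nhds_unique (h1.congr fun n => ?_) h2
      obtain ⟨k, hk⟩ := hv (φ n)
      show v (φ n) y = v (φ n) y'
      rw [← hk]
      exact hyy' (k+1)
    · intro y y' hyy'
      exact hyy' 0
    · intro q hq
      exact tendsto_nhds_unique (tendsto_pi_nhds.1 hlim q) ((hvQ q hq).comp hφ.tendsto_atTop)
  exact heq ▸ hlim

end Pool.Agent.Results.MP_3e0795_gt.OrderedImages
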