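import Mathlib
import Pool.Agent.Lib.Helper88.CpDefs
import Pool.Agent.Lib.Helper88.CpCore

/-!
# The Grothendieck property for sequentially closed function spaces

For every subspace `Y` of a perfectly normal compact space, every sequentially closed subspace `Z` of
`C_p(Y)` is a g-space, and the compact closures that occur are sequential spaces.
-/

open Set Filter Topology Helper88.CpTheory

namespace Pool.Agent.Results.MP_3e0795_gt.Sequential

universe u

theorem result (X : Type u) [TopologicalSpace X] [CompactSpace X] [T2Space X]
    [PerfectlyNormalSpace X] (Y : Set X) (Z : Set (Cp Y)) (hZ : IsSeqClosed Z)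
    (A : Set Z) (hA : CountablyCompactIn A) :
    IsCompact (closure A) ∧ SequentialSpace (closure A) := by
  have := hereditarilyLindelof_of_perfectlyNormal X
  have := firstCountable_of_perfectlyNormal X
  have h := CCin_of_countablyCompactIn hA
  have hc : ∀ f ∈ fns (Set.univ : Set Z), Continuous f := fun f hf => continuous_of_mem_fns hf
  have hcomp := isCompact_closure_of_CCin h
  have hcont : ∀ f ∈ closure (fns A), Continuous f := fun f hf => continuous_of_closure h hc hf
  have hB : CCin (closure (fns A)) (closure (fns A)) := CCin_of_isCompact hcomp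
  -- the closure consists of members of `Z`
  have hsub : closure (fns A) ⊆ fns (Set.univ : Set Z) := by
    have hcl : IsClosed (closure (fns A) ∩ fns (Set.univ : Set Z)) := by
      apply isClosed_of_seqClosed hB hcont inter_subset_left
      intro v hv g hg
      have hgB : g ∈ closure (fns A) :=
        isClosed_closure.mem_of_tendsto hg (Eventually.of_forall fun n => (hv n).1)
      refine ⟨hgB, ?_⟩
      choose z hz1 hz2 using fun n => (hv n).2
      have hlim : Tendsto (fun n => (z n).1) atTop (𝓝 (⟨g, hcont g hgB⟩ : Cp Y)) := by
        refine tendsto_subtype_rng.2 ?_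
        refine hg.congr (fun n => ?_)
        exact (hz2 n).symm
      have hgZ : (⟨g, hcont g hgB⟩ : Cp Y) ∈ Z := hZ (fun n => (z n).2) hlim
      exact ⟨⟨_, hgZ⟩, mem_univ _, rfl⟩
    have h1 : fns A ⊆ closure (fns A) ∩ fns (Set.univ : Set Z) :=
      subset_inter subset_closure (Set.image_mono (subset_univ _))
    exact (closure_minimal h1 hcl).trans inter_subset_right
  have h2 : closure ((fun z : Z => (z.1.1 : Y → ℝ)) '' A) ∩ Set.range (fun z : Z => (z.1.1 : Y → ℝ)) =
      closure (fns A) := by
    apply Set.inter_eq_left.2
    rw [← Set.image_univ]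
    exact hsub
  have himg : (fun z : Z => (z.1.1 : Y → ℝ)) '' closure A = closure (fns A) := by
    rw [(isInducing_fns Z).closure_eq_preimage_closure_image, Set.image_preimage_eq_inter_range, h2]
  refine ⟨?_, ⟨fun s hs => ?_⟩⟩
  · rw [(isInducing_fns Z).isCompact_iff, himg]
    exact hcomp
  · -- sequential
    let j : closure A → (Y → ℝ) := fun c => c.1.1.1
    have hj : IsInducing j := (isInducing_fns Z).comp IsInducing.subtypeVal
    have hjinj : Function.Injective j := fun a b hab =>
      Subtype.ext (Subtype.ext (Subtype.ext hab))
    have hC : IsClosed (j '' s) := by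
      apply isClosed_of_seqClosed hB hcont
      · rintro _ ⟨c, _, rfl⟩
        rw [← himg]
        exact ⟨c.1, c.2, rfl⟩
      · intro v hv g hg
        choose c hc1 hc2 using hv
        have hgB : g ∈ closure (fns A) := by
          apply isClosed_closure.mem_of_tendsto hg
          refine Eventually.of_forall fun n => ?_
          rw [← hc2 n, ← himg]
          exact ⟨(c n).1, (c n).2, rfl⟩
        rw [← himg] at hgB
        obtain ⟨z, hz, rfl⟩ := hgB
        refine ⟨⟨z, hz⟩, hs hc1 ?_, rfl⟩
        rw [hj.tendsto_nhds_iff]
        refine hg.congr (fun n => ?_)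
        exact (hc2 n).symm
    have : s = j ⁻¹' (j '' s) := (Set.preimage_image_eq s hjinj).symm
    rw [this]
    exact hC.preimage hj.continuous

end Pool.Agent.Results.MP_3e0795_gt.Sequential
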