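import Mathlib
import Pool.Agent.Lib.Helper88.CpDefs
import Pool.Agent.Lib.Helper88.CpCore
import Pool.Agent.Lib.Helper88.CpBounding

/-!
# Perfectly normal compacta of small hereditary density
-/

open Set Filter Topology Helper88.CpTheory

namespace Pool.Agent.Results.MP_3e0795_gt.SmallDensity

/-- A perfectly normal compact space all of whose closed subspaces have a dense subset of size less
than the bounding number is hereditarily Grothendieck. -/
theorem result (X : Type) [TopologicalSpace X] [CompactSpace X] [T2Space X]
    [PerfectlyNormalSpace X]
    (hd : ∀ F : Set X, IsClosed F → ∃ D : Set X, D ⊆ F ∧ F ⊆ closure D ∧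
      Cardinal.mk D < boundingNumber) :
    IsHereditarilyGrothendieck X :=
  hereditarilyGrothendieck_of_density X hd

end Pool.Agent.Results.MP_3e0795_gt.SmallDensity
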