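import Mathlib
import Pool.Agent.Lib.Helper88.CpDefs
import Pool.Agent.Lib.Helper88.CpCore
import Pool.Agent.Lib.Helper88.CpBounding
import Pool.Agent.Lib.Helper88.SuslinDefs
import Pool.Agent.Lib.Helper88.SuslinNormal
import Pool.Agent.Lib.Helper88.SuslinPath
import Pool.Agent.Lib.H96D.S1
import Pool.Agent.Lib.H30C.Models
import Pool.Agent.Lib.H30C.ZMA
import Pool.Agent.Lib.H30C.ZDia
import Pool.Agent.Lib.H30C.AppB

/-!
# The question is undecidable in ZFC

Martin's axiom `MA_{ℵ₁}` holds in some model of ZFC, and if it holds in the universe of sets then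
every perfectly normal compact space is hereditarily Grothendieck. Jensen's principle `◇` holds in
some model of ZFC, and if it holds in the universe of sets then some perfectly normal compact space
is not hereditarily Grothendieck.
-/

open Set Filter Topology Helper88.CpTheory Helper88.SuslinTree
open Pool.Agent.H5Z Pool.Agent.H30C

namespace Pool.Agent.Results.MP_3e0795_gt.Undecidable

theorem result :
    ((∃ (M : Type 1) (E : M → M → Prop), ModelsZFC E ∧ MAIn E) ∧
      (MAIn (fun x y : ZFSet.{0} => x ∈ y) →
        ∀ (X : Type) [TopologicalSpace X] [CompactSpace X] [T2Space X] [PerfectlyNormalSpace X],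
          IsHereditarilyGrothendieck X)) ∧
    ((∃ (M : Type 1) (E : M → M → Prop), ModelsZFC E ∧ DiaIn E) ∧
      (DiaIn (fun x y : ZFSet.{0} => x ∈ y) →
        ∃ (X : Type) (_ : TopologicalSpace X), CompactSpace X ∧ T2Space X ∧
          PerfectlyNormalSpace X ∧ ¬ IsHereditarilyGrothendieck X)) := by
  refine ⟨⟨exists_ma_model, ?_⟩, ⟨exists_dia_model, ?_⟩⟩
  · intro hMA X _ _ _ _
    apply hereditarilyGrothendieck_of_density X
    intro F hF
    obtain ⟨D, h1, h2, h3⟩ := density X F hF
    exact ⟨D, h1, h2, h3.trans_lt (bounding_of_ma (ma_of_in hMA))⟩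
  · intro hD
    have hdia := dia_of_in hD
    obtain ⟨T, _, hT⟩ := Pool.Agent.H96D.exists_suslin_of_diamond hdia
    obtain ⟨T', _, hT'⟩ := exists_normal hT
    exact ⟨PathSpace T' × (ℕ → Bool), inferInstance, inferInstance, inferInstance,
      perfectlyNormal_of_Fs (Fs_prod (Fs_pathSpace hT')),
      not_hereditarilyGrothendieck (Pool.Agent.H96D.ch_of_diamond hdia) hT'⟩

end Pool.Agent.Results.MP_3e0795_gt.Undecidable
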